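import Pool.Agent.AT8.StmtsF
import Pool.Agent.Helper51_AWC.Irr

/-!
# Squad AT8, row FGR: the Gram matrix of the vectors `cl`
-/

open scoped BigOperators

set_option linter.unusedSectionVars false

noncomputable section

namespace Pool.Agent.PP.T8.H62

open Pool.Agent.Helper51_AWC Pool.Agent.Helper79_WRA Pool.Agent.PP Pool.Agent.PP.KF
open Pool.Agent.PP.K9 Pool.Agent.PP.K9.H97 Pool.Agent.PP.H75 Pool.Agent.PP.T3 Pool.Agent.PP.T2

attribute [local instance] Ideal.Quotient.field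

section abs

theorem char_inv {A : Type} [Group A] (lam : A →* ℂ) (a : A) : lam a⁻¹ * lam a = 1 := by
  rw [← map_mul, inv_mul_cancel, map_one]

theorem char_star {A : Type} [Group A] [Finite A] (lam : A →* ℂ) (a : A) :
    starRingEnd ℂ (lam a⁻¹) = lam a := by
  have h1 : (lam a⁻¹) ^ Nat.card A = 1 := by
    rw [← map_pow, pow_card_eq_one', map_one]
  have h2 : ‖lam a⁻¹‖ = 1 := Complex.norm_eq_one_of_pow_eq_one h1 Nat.card_pos.ne'
  have h3 : starRingEnd ℂ (lam a⁻¹) = (lam a⁻¹)⁻¹ := (Complex.inv_eq_conj h2).symm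
  rw [h3]
  exact inv_eq_of_mul_eq_one_right (char_inv lam a)

theorem sum_mf {A : Type} [Group A] [Fintype A] (κ : A → ℂ) (hκ : ∀ u a, κ (u * a) = κ u * κ a)
    (h : ∃ a, κ a ≠ 1) : ∑ u, κ u = 0 := by
  obtain ⟨a, ha⟩ := h
  have h1 : ∑ u, κ u = (∑ u, κ u) * κ a := by
    rw [Finset.sum_mul]
    calc ∑ u, κ u = ∑ u, κ (u * a) :=
          (Fintype.sum_equiv (Equiv.mulRight a) _ _ fun _ => rfl).symm
      _ = _ := Finset.sum_congr rfl fun u _ => hκ u a
  have h2 : (∑ u, κ u) * (κ a - 1) = 0 := by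
    rw [mul_sub, mul_one, ← h1, sub_self]
  rcases mul_eq_zero.1 h2 with h | h
  · exact h
  · exact absurd (sub_eq_zero.1 h) ha

variable {G : Type} [Group G]

/-- the sum over `u` for one element `t` -/
theorem at_sum (V : Subgroup G) [Fintype V] (hab : ∀ a ∈ V, ∀ b ∈ V, a * b = b * a) (t : G)
    (ht : ∀ v ∈ V, t * v * t⁻¹ ∈ V) (ht' : ∀ v ∈ V, t⁻¹ * v * t ∈ V) (lam mu : V →* ℂ)
    (hl : ∃ v, lam v ≠ 1) (hm : ∃ v, mu v ≠ 1) [Decidable (Tc V t mu lam)] :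
    ∑ u : V, (lam u⁻¹ - 1) * (mu ⟨t * u * t⁻¹, ht u u.2⟩ - 1) =
      Nat.card V * (1 + if Tc V t mu lam then 1 else 0) := by
  have hcm : ∀ u a : V, (u * a)⁻¹ = u⁻¹ * a⁻¹ := by
    intro u a
    rw [mul_inv_rev]
    exact Subtype.ext (hab _ (a⁻¹).2 _ (u⁻¹).2)
  have hct : ∀ u a : V, (⟨t * ((u * a : V) : G) * t⁻¹, ht _ (u * a).2⟩ : V) =
      ⟨t * u * t⁻¹, ht u u.2⟩ * ⟨t * a * t⁻¹, ht a a.2⟩ := by
    intro u a
    apply Subtype.ext
    change t * ((u : G) * a) * t⁻¹ = t * u * t⁻¹ * (t * a * t⁻¹)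
    group
  have h1 : ∑ u : V, lam u⁻¹ = 0 := by
    refine sum_mf (fun u => lam u⁻¹) (fun u a => ?_) ?_
    · change lam (u * a)⁻¹ = lam u⁻¹ * lam a⁻¹
      rw [hcm, map_mul]
    · obtain ⟨v, hv⟩ := hl
      refine ⟨v⁻¹, ?_⟩
      rwa [inv_inv]
  have h2 : ∑ u : V, mu ⟨t * u * t⁻¹, ht u u.2⟩ = 0 := by
    refine sum_mf (fun u : V => mu ⟨t * u * t⁻¹, ht u u.2⟩) (fun u a => ?_) ?_
    · change mu ⟨t * ((u * a : V) : G) * t⁻¹, ht _ (u * a).2⟩ = _
      rw [hct, map_mul]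
    · obtain ⟨v, hv⟩ := hm
      refine ⟨⟨t⁻¹ * v * t, ht' v v.2⟩, ?_⟩
      change mu ⟨t * (t⁻¹ * v * t) * t⁻¹, _⟩ ≠ 1
      have h3 : (⟨t * (t⁻¹ * v * t) * t⁻¹, ht _ (ht' v v.2)⟩ : V) = v := by
        apply Subtype.ext
        change t * (t⁻¹ * v * t) * t⁻¹ = v
        group
      rwa [h3]
  have h3 : ∑ u : V, lam u⁻¹ * mu ⟨t * u * t⁻¹, ht u u.2⟩ =
      Nat.card V * if Tc V t mu lam then 1 else 0 := by
    by_cases hT : Tc V t mu lam
    · rw [if_pos hT, mul_one]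
      have h4 : ∀ u : V, lam u⁻¹ * mu ⟨t * u * t⁻¹, ht u u.2⟩ = 1 := by
        intro u
        rw [← hT u ⟨t * u * t⁻¹, ht u u.2⟩ rfl, char_inv]
      rw [Finset.sum_congr rfl fun u _ => h4 u, Finset.sum_const, Finset.card_univ, nsmul_eq_mul,
        mul_one, Nat.card_eq_fintype_card]
    · rw [if_neg hT, mul_zero]
      refine sum_mf (fun u : V => lam u⁻¹ * mu ⟨t * u * t⁻¹, ht u u.2⟩) (fun u a => ?_) ?_
      · change lam (u * a)⁻¹ * mu ⟨t * ((u * a : V) : G) * t⁻¹, ht _ (u * a).2⟩ = _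
        rw [hct, hcm, map_mul, map_mul]
        ring
      · by_contra hcon
        apply hT
        intro v w hw
        have h4 : lam v⁻¹ * mu ⟨t * v * t⁻¹, ht v v.2⟩ = 1 := by
          by_contra h5
          exact hcon ⟨v, h5⟩
        have h5 : w = ⟨t * v * t⁻¹, ht v v.2⟩ := Subtype.ext hw
        rw [← h5] at h4
        have h6 := char_inv lam v
        have h7 : lam v⁻¹ ≠ 0 := left_ne_zero_of_mul_eq_one h6
        exact mul_left_cancel₀ h7 (h6.trans h4.symm)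
  have h4 : ∀ u : V, (lam u⁻¹ - 1) * (mu ⟨t * u * t⁻¹, ht u u.2⟩ - 1) =
      lam u⁻¹ * mu ⟨t * u * t⁻¹, ht u u.2⟩ - lam u⁻¹ - mu ⟨t * u * t⁻¹, ht u u.2⟩ + 1 := by
    intro u
    ring
  rw [Finset.sum_congr rfl fun u _ => h4 u, Finset.sum_add_distrib, Finset.sum_sub_distrib,
    Finset.sum_sub_distrib, h1, h2, h3, Finset.sum_const, Finset.card_univ, nsmul_eq_mul,
    Nat.card_eq_fintype_card]
  ring

variable [Finite G]

/-- the elements `t` of `T` with `t u t⁻¹ = u'` -/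
theorem count (V T : Subgroup G) [Fintype T]
    (hfr : ∀ t ∈ T, ∀ v ∈ V, v ≠ 1 → t * v = v * t → t ∈ Subgroup.centralizer (V : Set G))
    {u u' : G} (hu : u ∈ V) (hu1 : u ≠ 1) (h : ∃ t ∈ T, t * u * t⁻¹ = u')
    [DecidablePred fun t : T => (t : G) * u * (t : G)⁻¹ = u'] :
    (Finset.univ.filter fun t : T => (t : G) * u * (t : G)⁻¹ = u').card =
      Nat.card ((Subgroup.centralizer (V : Set G)).subgroupOf T) := by
  classical
  obtain ⟨t₀, ht₀, h0⟩ := h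
  have := Fintype.ofFinite ((Subgroup.centralizer (V : Set G)).subgroupOf T)
  rw [Nat.card_eq_fintype_card, ← Finset.card_univ]
  symm
  refine Finset.card_bij (fun (c : (Subgroup.centralizer (V : Set G)).subgroupOf T) _ =>
    (⟨t₀, ht₀⟩ : T) * c.1) ?_ ?_ ?_
  · intro c _
    rw [Finset.mem_filter]
    refine ⟨Finset.mem_univ _, ?_⟩
    have h1 : ((c.1 : T) : G) ∈ Subgroup.centralizer (V : Set G) := c.2
    have h2 := Subgroup.mem_centralizer_iff.1 h1 u hu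
    change t₀ * ((c.1 : T) : G) * u * (t₀ * ((c.1 : T) : G))⁻¹ = u'
    rw [← h0, mul_assoc t₀, ← h2, mul_inv_rev]
    group
  · intro c _ c' _ hcc
    exact Subtype.ext (mul_left_cancel hcc)
  · intro t ht
    rw [Finset.mem_filter] at ht
    have h1 := ht.2
    have h2 : t₀⁻¹ * (t : G) * u = u * (t₀⁻¹ * t) := by
      have h3 : t₀ * u * t₀⁻¹ = (t : G) * u * (t : G)⁻¹ := h0.trans h1.symm
      calc t₀⁻¹ * (t : G) * u = t₀⁻¹ * ((t : G) * u * (t : G)⁻¹) * t := by group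
        _ = t₀⁻¹ * (t₀ * u * t₀⁻¹) * t := by rw [h3]
        _ = u * (t₀⁻¹ * t) := by group
    have h3 : t₀⁻¹ * (t : G) ∈ T := T.mul_mem (T.inv_mem ht₀) t.2
    have h4 := hfr _ h3 u hu hu1 h2
    refine ⟨⟨(⟨t₀, ht₀⟩ : T)⁻¹ * t, h4⟩, Finset.mem_univ _, ?_⟩
    exact mul_inv_cancel_left _ _

/-- the Gram matrix, times the order of `C(V)` in `T` -/
theorem gram (V T : Subgroup G) [Fintype V] [Fintype T]
    (hTV : ∀ t ∈ T, ∀ v ∈ V, t * v * t⁻¹ ∈ V) (hab : ∀ a ∈ V, ∀ b ∈ V, a * b = b * a)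
    (hfr : ∀ t ∈ T, ∀ v ∈ V, v ≠ 1 → t * v = v * t → t ∈ Subgroup.centralizer (V : Set G))
    {κ : Type} (K : Finset κ) (w : G → κ → ℂ)
    (hw1 : ∀ u ∈ V, ∀ u' ∈ V, u ≠ 1 → u' ≠ 1 → (∃ t ∈ T, t * u * t⁻¹ = u') →
      ∑ χ ∈ K, w u χ * starRingEnd ℂ (w u' χ) = Nat.card V)
    (hw2 : ∀ u ∈ V, ∀ u' ∈ V, u ≠ 1 → u' ≠ 1 → (¬ ∃ t ∈ T, t * u * t⁻¹ = u') →
      ∑ χ ∈ K, w u χ * starRingEnd ℂ (w u' χ) = 0)
    (lam mu : V →* ℂ) (hl : ∃ v, lam v ≠ 1) (hm : ∃ v, mu v ≠ 1)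
    [DecidablePred fun t : T => Tc V (t : G) mu lam] :
    (Nat.card ((Subgroup.centralizer (V : Set G)).subgroupOf T) : ℂ) *
      ∑ χ ∈ K, ((Nat.card V : ℂ)⁻¹ * ∑ v : V, w v χ * (lam v⁻¹ - 1)) *
        starRingEnd ℂ ((Nat.card V : ℂ)⁻¹ * ∑ v : V, w v χ * (mu v⁻¹ - 1)) =
      Nat.card T + (Finset.univ.filter fun t : T => Tc V (t : G) mu lam).card := by
  classical
  have hV0 : (Nat.card V : ℂ) ≠ 0 := Nat.cast_ne_zero.2 Nat.card_pos.ne'
  set n : ℂ := (Nat.card V : ℂ) with hn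
  set c₀ : ℂ := (Nat.card ((Subgroup.centralizer (V : Set G)).subgroupOf T) : ℂ) with hc₀
  -- the sum over the characters
  have e1 : ∑ χ ∈ K, (n⁻¹ * ∑ v : V, w v χ * (lam v⁻¹ - 1)) *
        starRingEnd ℂ (n⁻¹ * ∑ v : V, w v χ * (mu v⁻¹ - 1)) =
      n⁻¹ * n⁻¹ * ∑ u : V, ∑ u' : V, (lam u⁻¹ - 1) * (mu u' - 1) *
        ∑ χ ∈ K, w u χ * starRingEnd ℂ (w u' χ) := by
    have hnc : starRingEnd ℂ n⁻¹ = n⁻¹ := by
      rw [map_inv₀, hn, Complex.conj_natCast]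
    have e2 : ∀ χ ∈ K, (n⁻¹ * ∑ v : V, w v χ * (lam v⁻¹ - 1)) *
        starRingEnd ℂ (n⁻¹ * ∑ v : V, w v χ * (mu v⁻¹ - 1)) =
      n⁻¹ * n⁻¹ * ∑ u : V, ∑ u' : V, (lam u⁻¹ - 1) * (mu u' - 1) *
        (w u χ * starRingEnd ℂ (w u' χ)) := by
      intro χ _
      rw [map_mul, hnc, map_sum]
      have e3 : ∀ v : V, starRingEnd ℂ (w v χ * (mu v⁻¹ - 1)) =
          starRingEnd ℂ (w v χ) * (mu v - 1) := by
        intro v
        rw [map_mul, map_sub, map_one, char_star]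
      rw [Finset.sum_congr rfl fun v _ => e3 v]
      have e4 : (n⁻¹ * ∑ v : V, w v χ * (lam v⁻¹ - 1)) *
          (n⁻¹ * ∑ v : V, starRingEnd ℂ (w v χ) * (mu v - 1)) =
          n⁻¹ * n⁻¹ * ((∑ v : V, w v χ * (lam v⁻¹ - 1)) *
            ∑ v : V, starRingEnd ℂ (w v χ) * (mu v - 1)) := by ring
      rw [e4, Finset.sum_mul_sum]
      congr 1
      refine Finset.sum_congr rfl fun u _ => Finset.sum_congr rfl fun u' _ => ?_
      ring
    rw [Finset.sum_congr rfl e2, ← Finset.mul_sum]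
    congr 1
    rw [Finset.sum_comm]
    refine Finset.sum_congr rfl fun u _ => ?_
    rw [Finset.sum_comm]
    refine Finset.sum_congr rfl fun u' _ => ?_
    rw [Finset.mul_sum]
  -- the orbits
  have e5 : ∀ u u' : V, c₀ * ((lam u⁻¹ - 1) * (mu u' - 1) *
        ∑ χ ∈ K, w u χ * starRingEnd ℂ (w u' χ)) =
      n * ∑ t : T, if (t : G) * u * (t : G)⁻¹ = u' then (lam u⁻¹ - 1) * (mu u' - 1) else 0 := by
    intro u u'
    by_cases hu : u = 1
    · have h1 : lam u⁻¹ - 1 = 0 := by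
        rw [hu, inv_one, map_one, sub_self]
      rw [h1]
      simp
    by_cases hu' : u' = 1
    · have h1 : mu u' - 1 = 0 := by
        rw [hu', map_one, sub_self]
      rw [h1]
      simp
    have hu1 : (u : G) ≠ 1 := fun h => hu (Subtype.ext h)
    have hu1' : (u' : G) ≠ 1 := fun h => hu' (Subtype.ext h)
    rw [← Finset.sum_filter, Finset.sum_const, nsmul_eq_mul]
    by_cases hex : ∃ t ∈ T, t * (u : G) * t⁻¹ = u'
    · rw [hw1 u u.2 u' u'.2 hu1 hu1' hex, count V T hfr u.2 hu1 hex]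
      ring
    · rw [hw2 u u.2 u' u'.2 hu1 hu1' hex]
      have h1 : (Finset.univ.filter fun t : T => (t : G) * u * (t : G)⁻¹ = u') = ∅ := by
        rw [Finset.filter_eq_empty_iff]
        intro t _ h2
        exact hex ⟨t, t.2, h2⟩
      rw [h1, Finset.card_empty, Nat.cast_zero]
      ring
  have e6 : c₀ * ∑ u : V, ∑ u' : V, (lam u⁻¹ - 1) * (mu u' - 1) *
        ∑ χ ∈ K, w u χ * starRingEnd ℂ (w u' χ) =
      n * ∑ t : T, ∑ u : V, (lam u⁻¹ - 1) * (mu ⟨t * u * (t : G)⁻¹, hTV t t.2 u u.2⟩ - 1) := by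
    rw [Finset.mul_sum]
    simp only [Finset.mul_sum]
    rw [Finset.sum_comm (s := (Finset.univ : Finset T))]
    refine Finset.sum_congr rfl fun u _ => ?_
    have e7 : ∀ u' : V, c₀ * ((lam u⁻¹ - 1) * (mu u' - 1) *
        ∑ χ ∈ K, w u χ * starRingEnd ℂ (w u' χ)) =
      ∑ t : T, n * if (t : G) * u * (t : G)⁻¹ = u' then (lam u⁻¹ - 1) * (mu u' - 1) else 0 := by
      intro u'
      rw [e5, Finset.mul_sum]
    have e8 : ∀ u' : V, ∑ χ ∈ K, c₀ * ((lam u⁻¹ - 1) * (mu u' - 1) *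
        (w u χ * starRingEnd ℂ (w u' χ))) =
      ∑ t : T, n * if (t : G) * u * (t : G)⁻¹ = u' then (lam u⁻¹ - 1) * (mu u' - 1) else 0 := by
      intro u'
      rw [← e7, Finset.mul_sum, Finset.mul_sum]
    rw [Finset.sum_congr rfl fun u' _ => e8 u', Finset.sum_comm]
    refine Finset.sum_congr rfl fun t _ => ?_
    rw [Finset.sum_eq_single (⟨t * u * (t : G)⁻¹, hTV t t.2 u u.2⟩ : V)]
    · rw [if_pos rfl]
    · intro v _ hv
      rw [if_neg, mul_zero]
      intro h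
      exact hv (Subtype.ext h.symm)
    · intro h
      exact absurd (Finset.mem_univ _) h
  have e9 : ∀ t : T, ∑ u : V, (lam u⁻¹ - 1) *
      (mu ⟨t * u * (t : G)⁻¹, hTV t t.2 u u.2⟩ - 1) =
      n * (1 + if Tc V (t : G) mu lam then 1 else 0) := by
    intro t
    refine at_sum V hab t (hTV t t.2) (fun v hv => ?_) lam mu hl hm
    have h1 := hTV _ (T.inv_mem t.2) v hv
    rwa [inv_inv] at h1
  rw [e1]
  have e10 : c₀ * (n⁻¹ * n⁻¹ * ∑ u : V, ∑ u' : V, (lam u⁻¹ - 1) * (mu u' - 1) *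
        ∑ χ ∈ K, w u χ * starRingEnd ℂ (w u' χ)) =
      n⁻¹ * n⁻¹ * (c₀ * ∑ u : V, ∑ u' : V, (lam u⁻¹ - 1) * (mu u' - 1) *
        ∑ χ ∈ K, w u χ * starRingEnd ℂ (w u' χ)) := by ring
  rw [e10, e6, Finset.sum_congr rfl fun t _ => e9 t, ← Finset.mul_sum, Finset.sum_add_distrib,
    Finset.sum_const, Finset.card_univ, nsmul_eq_mul, mul_one, ← Finset.sum_filter,
    Finset.sum_const, nsmul_eq_mul, mul_one, Nat.card_eq_fintype_card]
  field_simp

end abs

theorem fgr (hdor : DorStmt) (hdpw : DpwStmt) : FgrStmt := by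
  intro ℓ _ M _ hM hℓ2 G _ _ e V γ b d c ε hD hF lam mu hl hm
  classical
  have := Fintype.ofFinite V
  have := Fintype.ofFinite (Tg V γ)
  have hfin : (Irr G).Finite := by
    have := Fintype.ofFinite G
    exact irr_finite'
  have hab : ∀ a ∈ V, ∀ b ∈ V, a * b = b * a := hD.ld.ab
  have hTV : ∀ t ∈ Tg V γ, ∀ v ∈ V, t * v * t⁻¹ ∈ V := fun t ht v hv =>
    (Subgroup.mem_normalizer_iff.1 ht.1 v).1 hv
  have hreg : ∀ u ∈ V, u ≠ 1 → Rg V γ u := by
    intro u hu hu1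
    refine ⟨hu, hu1, ?_⟩
    rintro t ⟨ht, htu⟩
    refine hF t ht u hu hu1 ?_
    exact Subgroup.mem_centralizer_singleton_iff.1 htu
  have hdp := (hdpw ℓ M hM hℓ2 G e V γ b d c ε hD).1
  set w : G → (G → ℂ) → ℂ := fun u χ => (ε u : ℂ) * vv M b d u χ with hw
  have hww : ∀ u u' : G, ∑ χ ∈ hfin.toFinset, w u χ * starRingEnd ℂ (w u' χ) =
      (ε u : ℂ) * (ε u' : ℂ) * ∑ᶠ χ ∈ Irr G, vv M b d u χ * starRingEnd ℂ (vv M b d u' χ) := by
    intro u u'
    rw [finsum_mem_eq_finite_toFinset_sum _ hfin, Finset.mul_sum]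
    refine Finset.sum_congr rfl fun χ _ => ?_
    simp only [hw, map_mul, map_intCast]
    ring
  have hinv : ∀ u u' : G, (∃ t ∈ Tg V γ, t * u * t⁻¹ = u') ↔ ∃ t ∈ Tg V γ, t * u' * t⁻¹ = u := by
    intro u u'
    constructor
    · rintro ⟨t, ht, rfl⟩
      exact ⟨t⁻¹, inv_mem ht, by group⟩
    · rintro ⟨t, ht, rfl⟩
      exact ⟨t⁻¹, inv_mem ht, by group⟩
  have hw1 : ∀ u ∈ V, ∀ u' ∈ V, u ≠ 1 → u' ≠ 1 → (∃ t ∈ Tg V γ, t * u * t⁻¹ = u') →
      ∑ χ ∈ hfin.toFinset, w u χ * starRingEnd ℂ (w u' χ) = Nat.card V := by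
    intro u hu u' hu' hu1 hu1' hex
    have h1 := (hdor ℓ M hM G e V γ b d c ε hD u u' (hreg u hu hu1) (hreg u' hu' hu1')).1
      ((hinv u u').1 hex)
    rw [hww, h1]
    obtain ⟨t, ht, rfl⟩ := hex
    rw [(hdp t ht u (hreg u hu hu1)).2.1]
    rcases hD.sg u (hreg u hu hu1) with h | h <;> rw [h] <;> norm_num
  have hw2 : ∀ u ∈ V, ∀ u' ∈ V, u ≠ 1 → u' ≠ 1 → (¬ ∃ t ∈ Tg V γ, t * u * t⁻¹ = u') →
      ∑ χ ∈ hfin.toFinset, w u χ * starRingEnd ℂ (w u' χ) = 0 := by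
    intro u hu u' hu' hu1 hu1' hex
    have h1 := (hdor ℓ M hM G e V γ b d c ε hD u u' (hreg u hu hu1) (hreg u' hu' hu1')).2
      (fun h => hex ((hinv u u').2 h))
    rw [hww, h1, mul_zero]
  have key := gram V (Tg V γ) hTV hab hF hfin.toFinset w hw1 hw2 lam mu hl hm
  have hcl : ∑ᶠ χ ∈ Irr G, cl M V b d ε lam χ * starRingEnd ℂ (cl M V b d ε mu χ) =
      ∑ χ ∈ hfin.toFinset, ((Nat.card V : ℂ)⁻¹ * ∑ v : V, w v χ * (lam v⁻¹ - 1)) *
        starRingEnd ℂ ((Nat.card V : ℂ)⁻¹ * ∑ v : V, w v χ * (mu v⁻¹ - 1)) := by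
    rw [finsum_mem_eq_finite_toFinset_sum _ hfin]
    refine Finset.sum_congr rfl fun χ _ => ?_
    simp only [cl, finsum_eq_sum_of_fintype, hw]
  rw [← hcl] at key
  set C₀ : Subgroup (Tg V γ) := (Subgroup.centralizer (V : Set G)).subgroupOf (Tg V γ) with hC₀
  have hcard : Nat.card C₀ * ix V γ = Nat.card (Tg V γ) := Subgroup.card_mul_index C₀
  have hc0 : (Nat.card C₀ : ℂ) ≠ 0 := Nat.cast_ne_zero.2 Nat.card_pos.ne'
  rw [← hcard, Nat.cast_mul] at key
  constructor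
  · rintro rfl
    have h1 : (Finset.univ.filter fun t : Tg V γ => Tc V (t : G) lam lam).card =
        Nat.card C₀ := by
      rw [Nat.card_eq_fintype_card]
      rw [Fintype.card_subtype]
      congr 1
      ext t
      rw [Finset.mem_filter, Finset.mem_filter]
      simp only [Finset.mem_univ, true_and]
      constructor
      · intro hT
        by_contra hcon
        have hcon' : (t : G) ∉ Subgroup.centralizer (V : Set G) := hcon
        -- the injective map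
        set φ : V → V := fun u => ⟨(t : G) * u * (t : G)⁻¹ * (u : G)⁻¹,
          mul_mem (hTV t t.2 u u.2) (inv_mem u.2)⟩ with hφ
        have hinj : Function.Injective φ := by
          intro u u' huu
          by_contra hne
          apply hcon'
          have h2 : (t : G) * u * (t : G)⁻¹ * (u : G)⁻¹ =
              (t : G) * u' * (t : G)⁻¹ * (u' : G)⁻¹ := congrArg Subtype.val huu
          refine hF t t.2 ((u' : G)⁻¹ * u) (mul_mem (inv_mem u'.2) u.2) ?_ ?_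
          · intro h3
            apply hne
            apply Subtype.ext
            exact (inv_mul_eq_one.1 h3).symm
          · have h3 : (t : G) * ((u' : G)⁻¹ * u) * (t : G)⁻¹ = (u' : G)⁻¹ * u := by
              have h4 : (u' : G)⁻¹ * u = u * (u' : G)⁻¹ := hab _ (inv_mem u'.2) _ u.2
              have h5 := hTV t t.2 _ (inv_mem u'.2)
              have h6 := hTV t t.2 _ u.2
              have h7 := hab _ h5 _ h6
              have h8 : (t : G) * ((u' : G)⁻¹ * u) * (t : G)⁻¹ =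
                  (t : G) * (u' : G)⁻¹ * (t : G)⁻¹ * ((t : G) * u * (t : G)⁻¹) := by group
              rw [h8, h7]
              have h9 : (t : G) * u * (t : G)⁻¹ =
                  (t : G) * u' * (t : G)⁻¹ * (u' : G)⁻¹ * u := by
                rw [← h2]
                group
              rw [h9, h4]
              have h10 : (t : G) * u' * (t : G)⁻¹ * (u' : G)⁻¹ * u * ((t : G) * (u' : G)⁻¹ *
                  (t : G)⁻¹) = ((t : G) * u' * (t : G)⁻¹) * (((u' : G)⁻¹ * u) * ((t : G) *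
                  (u' : G)⁻¹ * (t : G)⁻¹)) := by group
              rw [h10, hab _ (mul_mem (inv_mem u'.2) u.2) _ h5, h4]
              group
            calc (t : G) * ((u' : G)⁻¹ * u) = (t : G) * ((u' : G)⁻¹ * u) * (t : G)⁻¹ * t := by
                  group
              _ = (u' : G)⁻¹ * u * t := by rw [h3]
        have hsur : Function.Surjective φ := Finite.surjective_of_injective hinj
        obtain ⟨v, hv⟩ := hl
        obtain ⟨u, hu⟩ := hsur v
        apply hv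
        have h3 : v = ⟨(t : G) * u * (t : G)⁻¹, hTV t t.2 u u.2⟩ * u⁻¹ := by
          rw [← hu]
          rfl
        rw [h3, map_mul, ← hT u ⟨(t : G) * u * (t : G)⁻¹, hTV t t.2 u u.2⟩ rfl, mul_comm,
          char_inv]
      · intro ht v w' hw'
        have h2 : (t : G) ∈ Subgroup.centralizer (V : Set G) := ht
        have h3 := Subgroup.mem_centralizer_iff.1 h2 v v.2
        have h4 : w' = v := by
          apply Subtype.ext
          rw [hw', ← h3, mul_inv_cancel_right]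
        rw [h4]
    rw [h1] at key
    have h2 : (Nat.card C₀ : ℂ) * (∑ᶠ χ ∈ Irr G, cl M V b d ε lam χ *
        starRingEnd ℂ (cl M V b d ε lam χ)) = (Nat.card C₀ : ℂ) * (1 + ix V γ) := by
      rw [key]
      ring
    exact mul_left_cancel₀ hc0 h2
  · intro hno
    have h1 : (Finset.univ.filter fun t : Tg V γ => Tc V (t : G) mu lam) = ∅ := by
      rw [Finset.filter_eq_empty_iff]
      intro t _
      exact hno t t.2
    rw [h1, Finset.card_empty, Nat.cast_zero, add_zero] at key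
    exact mul_left_cancel₀ hc0 key

end Pool.Agent.PP.T8.H62
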