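import Pool.Agent.AT8.Stmts1
import Pool.Agent.Helper10_K9.SM2
import Pool.Agent.Helper27_K9.PRT

/-!
# Squad AT8, row PRJ: class functions which vanish at the regular elements vanish at idempotents
-/

open scoped BigOperators

set_option linter.unusedSectionVars false

noncomputable section

namespace Pool.Agent.PP.T8.H62

open Pool.Agent.Helper51_AWC Pool.Agent.Helper79_WRA Pool.Agent.PP Pool.Agent.PP.KF
open Pool.Agent.PP.K9 Pool.Agent.PP.KF.H71 Pool.Agent.PP.KF.H92 Pool.Agent.PP.K9.H10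
open Pool.Agent.PP.T3

attribute [local instance] Ideal.Quotient.field

section ring

variable {F : Type} [Field F] {G : Type} [Group G] [Fintype G] [DecidableEq G]

/-- the matrix of the left multiplication with `z` -/
theorem Km_left (z : G) (x y : G) :
    Km (dl F z) (dl F (1 : G)) x y = if x = z * y then 1 else 0 := by
  rw [Km_apply, Finset.sum_eq_single z]
  · rw [dl, if_pos rfl, one_mul, dl]
    have h0 : (y⁻¹ * z⁻¹ * x = 1) ↔ x = z * y := by
      rw [← mul_inv_rev, inv_mul_eq_one]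
      exact eq_comm
    by_cases h : x = z * y
    · rw [if_pos (h0.2 h), if_pos h]
    · rw [if_neg (fun h' => h (h0.1 h')), if_neg h]
  · intro t _ ht
    rw [dl, if_neg ht, zero_mul]
  · intro h
    exact absurd (Finset.mem_univ _) h

theorem Km_left_pow (z : G) (k : ℕ) :
    Km (dl F z) (dl F (1 : G)) ^ k = Km (dl F (z ^ k)) (dl F (1 : G)) := by
  induction k with
  | zero => rw [pow_zero, pow_zero, Km_one]
  | succ k ih => rw [pow_succ, ih, Km_mul, dl_dl, dl_dl, mul_one, pow_succ]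

theorem conj_diag (z : G) (d : G → F) :
    Km (dl F z) (dl F (1 : G)) * Matrix.diagonal d * Km (dl F z⁻¹) (dl F (1 : G)) =
      Matrix.diagonal fun x => d (z⁻¹ * x) := by
  ext x w
  rw [Matrix.mul_apply, Finset.sum_eq_single (z⁻¹ * x)]
  · rw [Matrix.mul_diagonal, Km_left, Km_left, if_pos (by rw [mul_inv_cancel_left]), one_mul]
    by_cases h : x = w
    · rw [h, if_pos rfl, mul_one, Matrix.diagonal_apply_eq]
    · rw [if_neg (fun h' => h (mul_left_cancel h')), mul_zero, Matrix.diagonal_apply_ne _ h]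
  · intro t _ ht
    rw [Matrix.mul_diagonal, Km_left, if_neg, zero_mul, zero_mul]
    intro h
    apply ht
    rw [h, inv_mul_cancel_left]
  · intro h
    exact absurd (Finset.mem_univ _) h

theorem diag_comm (z : G) (d : G → F) (h : ∀ x, d (z * x) = d x) :
    Matrix.diagonal d * Km (dl F z) (dl F (1 : G)) =
      Km (dl F z) (dl F (1 : G)) * Matrix.diagonal d := by
  ext x w
  rw [Matrix.diagonal_mul, Matrix.mul_diagonal, Km_left]
  by_cases h' : x = z * w
  · rw [if_pos h', h', h, mul_comm]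
  · rw [if_neg h', mul_zero, zero_mul]

end ring

/-- the trace of `x ↦ g⁻¹ x i` -/
theorem key (trg : T3.TrgStmt) (cyc : T3.CycStmt) (ℓ : ℕ) [Fact ℓ.Prime]
    (M : Ideal (integralClosure ℤ ℂ)) [M.IsMaximal] (hM : (ℓ : integralClosure ℤ ℂ) ∈ M)
    (H : Type) [Group H] [Fintype H] (i : H → ℂ) (hiR : ∀ g, i g ∈ RM M)
    (hii : mulF i i = i) (g : H) (hg : ¬ Reg ℓ g) : ∑ x, i (x⁻¹ * g * x) = 0 := by
  classical
  have hℓ : ℓ.Prime := Fact.out
  obtain ⟨N, hN, -⟩ := K9.H27.prt ℓ H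
  obtain ⟨hsr, n, hyn⟩ := hN g
  set s : H := g ^ N with hs
  set y : H := s⁻¹ * g with hy
  have hsg : Commute s g := Commute.pow_left (Commute.refl g) N
  have hys : Commute y s := (Commute.inv_left (Commute.refl s)).mul_left hsg.symm
  have hgy : g = y * s := by
    rw [hys.eq, hy, mul_inv_cancel_left]
  have hy1 : y ≠ 1 := by
    intro h
    apply hg
    rw [hgy, h, one_mul]
    exact hsr
  have hml : ¬ ℓ ∣ orderOf s := (Nat.Prime.coprime_iff_not_dvd hℓ).1 (Nat.Coprime.symm hsr)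
  obtain ⟨c, hc01, hcl, hcs⟩ := cyc ℓ H (Equiv.mulLeft y) n (by
    ext x
    rw [Equiv.pow_mulLeft, hyn]
    exact one_mul x)
  have hcl' : ∀ x, c (y ^ ℓ * x) = c x := by
    intro x
    have h := hcl x
    rwa [Equiv.pow_mulLeft, Equiv.coe_mulLeft] at h
  have hcs' : ∀ x, ∑ k ∈ Finset.range ℓ, c (y ^ k * x) = 1 := by
    intro x
    have h := hcs x (by
      rw [Equiv.coe_mulLeft]
      intro h
      exact hy1 (mul_eq_right.1 h))
    simpa only [Equiv.pow_mulLeft, Equiv.coe_mulLeft] using h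
  set P : Matrix H H ℂ := Km (dl ℂ (1 : H)) i with hP
  set U : Matrix H H ℂ := Km (dl ℂ y⁻¹) (dl ℂ (1 : H)) with hU
  set W : Matrix H H ℂ := Km (dl ℂ y) (dl ℂ (1 : H)) with hW
  set V : Matrix H H ℂ := Km (dl ℂ s⁻¹) (dl ℂ (1 : H)) with hV
  set X : Matrix H H ℂ := Matrix.diagonal fun x => (c x : ℂ) with hX
  have hone : mulF i (dl ℂ (1 : H)) = i := by
    funext x
    rw [H75.mulF_dl_right, inv_one, mul_one]
  have hLP : ∀ z : H, Km (dl ℂ z) (dl ℂ (1 : H)) * P = Km (dl ℂ z) i := by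
    intro z
    rw [hP, Km_mul, dl_dl, mul_one, hone]
  have hPL : ∀ z : H, P * Km (dl ℂ z) (dl ℂ (1 : H)) = Km (dl ℂ z) i := by
    intro z
    rw [hP, Km_mul, dl_dl, one_mul, dl_one_mulF]
  have hdlr : ∀ z : H, (fun x => rr M (dl ℂ z x)) = dl (FF M) z := fun z =>
    funext fun x => (dl_RM z x).2
  have hzR : ∀ z : H, ∀ a b, Km (dl ℂ z) (dl ℂ (1 : H)) a b ∈ RM M := fun z a b =>
    Km_RM (fun x => (dl_RM z x).1) (fun x => (dl_RM 1 x).1) a b
  have hPR : ∀ a b, P a b ∈ RM M := fun a b => Km_RM (fun x => (dl_RM 1 x).1) hiR a b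
  have hXR : ∀ a b, X a b ∈ RM M := by
    intro a b
    rw [hX, Matrix.diagonal_apply]
    split_ifs
    · rcases hc01 a with h | h
      · rw [h, Nat.cast_zero]
        exact (RM M).zero_mem
      · rw [h, Nat.cast_one]
        exact (RM M).one_mem
    · exact (RM M).zero_mem
  have hzm : ∀ z : H, (Km (dl ℂ z) (dl ℂ (1 : H))).map (rr M) =
      Km (dl (FF M) z) (dl (FF M) (1 : H)) := by
    intro z
    rw [Km_map (fun x => (dl_RM z x).1) (fun x => (dl_RM 1 x).1), hdlr, hdlr]
  have hPm : P.map (rr M) = Km (dl (FF M) (1 : H)) (fun x => rr M (i x)) := by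
    rw [hP, Km_map (fun x => (dl_RM 1 x).1) hiR, hdlr]
  have hXm : X.map (rr M) = Matrix.diagonal fun x => (c x : FF M) := by
    ext a b
    rw [Matrix.map_apply, hX, Matrix.diagonal_apply, Matrix.diagonal_apply]
    split_ifs
    · rcases hc01 a with h | h
      · rw [h, Nat.cast_zero, Nat.cast_zero, rr_zero]
      · rw [h, Nat.cast_one, Nat.cast_one, rr_one]
    · exact rr_zero
  have hterm : ∀ k : ℕ, U.map (rr M) ^ k * X.map (rr M) * W.map (rr M) ^ k =
      Matrix.diagonal fun x => (c (y ^ k * x) : FF M) := by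
    intro k
    have h := conj_diag (F := FF M) ((y⁻¹) ^ k) fun x => (c x : FF M)
    rw [inv_pow, inv_inv] at h
    rw [hU, hW, hzm, hzm, hXm, Km_left_pow, Km_left_pow, inv_pow]
    exact h
  have hsum : ∑ k ∈ Finset.range ℓ, U.map (rr M) ^ k * X.map (rr M) * W.map (rr M) ^ k = 1 := by
    rw [Finset.sum_congr rfl fun k _ => hterm k]
    ext a b
    rw [Matrix.sum_apply]
    by_cases h : a = b
    · rw [← h, Matrix.one_apply_eq]
      simp only [Matrix.diagonal_apply_eq]
      rw [← Nat.cast_sum, hcs', Nat.cast_one]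
    · rw [Matrix.one_apply_ne h]
      exact Finset.sum_eq_zero fun k _ => Matrix.diagonal_apply_ne _ h
  have htr := trg ℓ M hM H P U W V X (orderOf s) (orderOf_pos s) hml hPR (hzR _) (hzR _) (hzR _)
    hXR (by rw [hP, Km_mul, dl_dl, mul_one, hii])
    (by rw [hU, hW, Km_mul, dl_dl, dl_dl, inv_mul_cancel, mul_one, Km_one])
    (by rw [hV, Km_left_pow, inv_pow, pow_orderOf_eq_one, inv_one, Km_one])
    (by rw [hU, hLP, hPL]) (by rw [hV, hLP, hPL])
    (by
      rw [hU, hV, Km_mul, Km_mul, dl_dl, dl_dl, dl_dl, ← mul_inv_rev, ← mul_inv_rev, hys.eq])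
    (by
      rw [hX, hU, Km_left_pow]
      refine diag_comm _ _ fun x => ?_
      have h := hcl' ((y⁻¹) ^ ℓ * x)
      rw [inv_pow, mul_inv_cancel_left] at h
      rw [inv_pow, ← h])
    (by
      rw [hsum, Matrix.mul_one, hPm, Km_mul, dl_dl, mul_one]
      congr 1
      funext x
      rw [← (mulF_RM hiR hiR x).2, hii])
  rw [Matrix.mul_assoc, hV, hLP, hU, Km_mul, dl_dl, ← mul_inv_rev] at htr
  have hone' : mulF i (dl ℂ (1 : H)) = i := hone
  rw [hone', hys.symm.eq, ← hgy] at htr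
  rw [← htr, Matrix.trace]
  refine Finset.sum_congr rfl fun x _ => ?_
  rw [Matrix.diag_apply, Km_apply, Finset.sum_eq_single g⁻¹]
  · rw [dl, if_pos rfl, one_mul, inv_inv]
  · intro t _ ht
    rw [dl, if_neg ht, zero_mul]
  · intro h
    exact absurd (Finset.mem_univ _) h

theorem prj (trg : T3.TrgStmt) (cyc : T3.CycStmt) : PrjStmt := by
  intro ℓ _ M _ hM H _ _ i hiR hii th hth hreg
  classical
  have := Fintype.ofFinite H
  rw [finsum_eq_sum_of_fintype]
  have h1 : ∑ g : H, th g * ∑ x : H, i (x⁻¹ * g * x) =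
      (Fintype.card H : ℂ) * ∑ h, i h * th h := by
    simp only [Finset.mul_sum]
    rw [Finset.sum_comm]
    have h2 : ∀ x : H, ∑ g : H, th g * i (x⁻¹ * g * x) = ∑ h, i h * th h := by
      intro x
      refine Fintype.sum_equiv (MulAut.conj x⁻¹).toEquiv _ _ fun g => ?_
      have h3 : (MulAut.conj x⁻¹).toEquiv g = x⁻¹ * g * x := by
        change x⁻¹ * g * (x⁻¹)⁻¹ = _
        rw [inv_inv]
      have h4 : th (x⁻¹ * g * x) = th g := by
        have h5 := hth g x⁻¹
        rwa [inv_inv] at h5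
      rw [h3, h4, mul_comm]
    rw [Finset.sum_congr rfl fun x _ => h2 x, Finset.sum_const, Finset.card_univ, nsmul_eq_mul,
      Finset.mul_sum]
  have h6 : ∑ g : H, th g * ∑ x : H, i (x⁻¹ * g * x) = 0 := by
    refine Finset.sum_eq_zero fun g _ => ?_
    by_cases hg : Reg ℓ g
    · rw [hreg g hg, zero_mul]
    · rw [key trg cyc ℓ M hM H i hiR hii g hg, mul_zero]
  rw [h6] at h1
  rcases mul_eq_zero.1 h1.symm with h | h
  · exact absurd h (Nat.cast_ne_zero.2 Fintype.card_ne_zero)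
  · exact h

end Pool.Agent.PP.T8.H62
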